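import Pool.Agent.EDG.StmtsC

namespace Pool.Agent.EDG.H53

open Polynomial Filter Topology Pool.Agent.EDG.C

theorem ev_rev (P : ℂ[X]) (s : ℝ) (hs : 0 < s) :
    ‖P.eval (-(s : ℂ) ^ 2)‖ = ‖P.reverse.eval ((-(s : ℂ) ^ 2)⁻¹)‖ * s ^ (2 * P.natDegree) := by
  have hx : (-(s : ℂ) ^ 2) ≠ 0 := by
    have : (s : ℂ) ≠ 0 := by exact_mod_cast hs.ne'
    exact neg_ne_zero.mpr (pow_ne_zero 2 this)
  letI := invertibleOfNonzero hx
  have h := Polynomial.eval₂_reverse_mul_pow (RingHom.id ℂ) (-(s : ℂ) ^ 2) P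
  rw [invOf_eq_inv, ← Polynomial.eval_map, ← Polynomial.eval_map, Polynomial.map_id,
    Polynomial.map_id] at h
  rw [← h, norm_mul, norm_pow, norm_neg, norm_pow, Complex.norm_real, Real.norm_eq_abs,
    abs_of_pos hs, ← pow_mul]

theorem rev_lim (P : ℂ[X]) :
    Tendsto (fun s : ℝ => ‖P.reverse.eval ((-(s : ℂ) ^ 2)⁻¹)‖) atTop (𝓝 ‖P.leadingCoeff‖) := by
  have h0 : Tendsto (fun s : ℝ => (-(s : ℂ) ^ 2)⁻¹) atTop (𝓝 0) := by
    have h1 : Tendsto (fun s : ℝ => (s ^ 2)⁻¹) atTop (𝓝 0) :=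
      tendsto_inv_atTop_zero.comp (tendsto_pow_atTop (by norm_num))
    rw [tendsto_zero_iff_norm_tendsto_zero]
    refine h1.congr (fun s => ?_)
    rw [norm_inv, norm_neg, norm_pow, Complex.norm_real, Real.norm_eq_abs, sq_abs]
  have h2 : Tendsto (fun y : ℂ => ‖P.reverse.eval y‖) (𝓝 0) (𝓝 ‖P.reverse.eval 0‖) :=
    (P.reverse.continuous.norm).tendsto 0
  have h3 : P.reverse.eval 0 = P.leadingCoeff := by
    rw [← Polynomial.coeff_zero_eq_eval_zero, Polynomial.coeff_zero_reverse]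
  rw [h3] at h2
  exact h2.comp h0

theorem grl : GrlStmt := by
  intro P hP
  have hl : 0 < ‖P.leadingCoeff‖ := norm_pos_iff.mpr (leadingCoeff_ne_zero.mpr hP)
  have hlim := rev_lim P
  set L : ℝ → ℝ := fun s => ‖P.reverse.eval ((-(s : ℂ) ^ 2)⁻¹)‖ with hL
  refine ⟨?_, ?_, ?_⟩
  · intro K a hK
    by_contra hcon
    push Not at hcon
    have h1 : ∀ s : ℝ, 4 ≤ s → L s * s ^ (2 * P.natDegree - a) ≤ K := by
      intro s hs
      have hs0 : 0 < s := by linarith
      have h2 := hK s hs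
      rw [ev_rev P s hs0] at h2
      have h3 : s ^ (2 * P.natDegree) = s ^ (2 * P.natDegree - a) * s ^ a := by
        rw [← pow_add]; congr 1; omega
      rw [h3, ← mul_assoc] at h2
      exact le_of_mul_le_mul_right h2 (pow_pos hs0 a)
    have h4 : Tendsto (fun s : ℝ => L s * s ^ (2 * P.natDegree - a)) atTop atTop :=
      hlim.pos_mul_atTop hl (tendsto_pow_atTop (by omega))
    obtain ⟨s, h5, h6⟩ := ((h4.eventually_gt_atTop K).and (eventually_ge_atTop 4)).exists
    linarith [h1 s h6]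
  · intro K a hK
    by_contra hcon
    push Not at hcon
    have h1 : ∀ s : ℝ, 4 ≤ s → s ^ (a - 2 * P.natDegree) ≤ K * L s := by
      intro s hs
      have hs0 : 0 < s := by linarith
      have h2 := hK s hs
      rw [ev_rev P s hs0] at h2
      have h3 : s ^ a = s ^ (a - 2 * P.natDegree) * s ^ (2 * P.natDegree) := by
        rw [← pow_add]; congr 1; omega
      rw [h3, ← mul_assoc] at h2
      exact le_of_mul_le_mul_right h2 (pow_pos hs0 _)
    have h4 : Tendsto (fun s : ℝ => K * L s) atTop (𝓝 (K * ‖P.leadingCoeff‖)) :=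
      hlim.const_mul K
    have h5 : Tendsto (fun s : ℝ => s ^ (a - 2 * P.natDegree)) atTop atTop :=
      tendsto_pow_atTop (by omega)
    have h6 : ∀ᶠ s in atTop, K * L s < K * ‖P.leadingCoeff‖ + 1 :=
      h4.eventually_lt_const (by linarith)
    obtain ⟨s, ⟨h7, h8⟩, h9⟩ := ((h6.and (h5.eventually_gt_atTop (K * ‖P.leadingCoeff‖ + 1))).and
      (eventually_ge_atTop 4)).exists
    linarith [h1 s h9]
  · refine ⟨∑ i ∈ Finset.range (P.natDegree + 1), ‖P.coeff i‖, ?_⟩
    intro s hs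
    have hs0 : 0 < s := by linarith
    rw [Polynomial.eval_eq_sum_range, Finset.sum_mul]
    refine (norm_sum_le _ _).trans (Finset.sum_le_sum (fun i hi => ?_))
    rw [norm_mul, norm_pow, norm_neg, norm_pow, Complex.norm_real, Real.norm_eq_abs,
      abs_of_pos hs0, ← pow_mul]
    refine mul_le_mul_of_nonneg_left ?_ (norm_nonneg _)
    refine pow_le_pow_right₀ (by linarith) ?_
    have := Finset.mem_range.mp hi
    omega

end Pool.Agent.EDG.H53
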